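import Mathlib

open Polynomial Finset

namespace Pool.Agent.Lib.MP_441cc7_al

/-- `f` weakly alternates in sign along `L` increasing indices. -/
def Alt (f : ℕ → ℝ) (L : ℕ) : Prop :=
  ∃ (idx : ℕ → ℕ) (σ : ℝ), σ ≠ 0 ∧ (∀ s, s + 1 < L → idx s < idx (s + 1)) ∧
    ∀ s, s < L → 0 ≤ σ * (-1) ^ s * f (idx s)

theorem exists_step (f : ℕ → ℝ) (a b : ℕ) (hab : a < b) (h : 0 ≤ f a - f b) :
    ∃ l, a ≤ l ∧ l < b ∧ 0 ≤ f l - f (l + 1) := by
  by_contra hc
  push Not at hc
  have key : ∀ m, a + m + 1 ≤ b → f a < f (a + m + 1) := by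
    intro m
    induction m with
    | zero => intro hm; have := hc a le_rfl (by omega); simp only [Nat.add_zero]; linarith
    | succ m ih =>
      intro hm
      have h1 := ih (by omega)
      have h2 := hc (a + m + 1) (by omega) (by omega)
      have : a + (m + 1) + 1 = a + m + 1 + 1 := by ring
      rw [this]; linarith
  have := key (b - a - 1) (by omega)
  have e : a + (b - a - 1) + 1 = b := by omega
  rw [e] at this; linarith

theorem alt_step (f g w : ℕ → ℝ) (hw : ∀ i, 0 < w i)
    (hfg : ∀ i, f i - f (i + 1) = w i * g (i + 1)) (L : ℕ) (h : Alt f (L + 1)) : Alt g L := by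
  obtain ⟨idx, σ, hσ, hmono, hs⟩ := h
  have ex : ∀ s, ∃ l, s < L → (idx s ≤ l ∧ l < idx (s + 1) ∧ 0 ≤ σ * (-1) ^ s * g (l + 1)) := by
    intro s
    by_cases hsL : s < L
    · have h1 := hs s (by omega)
      have h2 := hs (s + 1) (by omega)
      obtain ⟨l, hl1, hl2, hl3⟩ := exists_step (fun i => σ * (-1) ^ s * f i) (idx s) (idx (s + 1))
        (hmono s (by omega)) (by
          have : σ * (-1) ^ (s + 1) * f (idx (s + 1)) = -(σ * (-1) ^ s * f (idx (s + 1))) := by
            ring
          rw [this] at h2; linarith)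
      refine ⟨l, fun _ => ⟨hl1, hl2, ?_⟩⟩
      have e : σ * (-1) ^ s * f l - σ * (-1) ^ s * f (l + 1)
          = w l * (σ * (-1) ^ s * g (l + 1)) := by
        rw [← mul_sub, hfg l]; ring
      rw [e] at hl3
      exact (mul_nonneg_iff_of_pos_left (hw l)).1 hl3
    · exact ⟨0, fun h => absurd h hsL⟩
  choose l hl using ex
  refine ⟨fun s => l s + 1, σ, hσ, ?_, fun s hs' => (hl s hs').2.2⟩
  intro s hs'
  have h1 := (hl s (by omega)).2.1
  have h2 := (hl (s + 1) hs').1
  simp only
  omega

theorem alt_const (f : ℕ → ℝ) (c : ℝ) (hf : ∀ i, f i = c) (L : ℕ) (h : Alt f (L + 2)) : c = 0 := by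
  obtain ⟨idx, σ, hσ, -, hs⟩ := h
  have h0 := hs 0 (by omega)
  have h1 := hs 1 (by omega)
  rw [hf] at h0 h1
  have : σ * c = 0 := by
    simp only [pow_zero, mul_one, pow_one] at h0 h1
    linarith
  rcases mul_eq_zero.1 this with h | h
  · exact absurd h hσ
  · exact h

/-- product of `m` consecutive linear factors starting at index `i + 1`. -/
noncomputable def Q (t : ℕ → ℝ) (m i : ℕ) : ℝ[X] := ∏ j ∈ range m, (X - C (t (i + 1 + j)))

theorem Q_sub (t : ℕ → ℝ) (m i : ℕ) :
    Q t (m + 1) i - Q t (m + 1) (i + 1) = (t (i + m + 2) - t (i + 1)) • Q t m (i + 1) := by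
  unfold Q
  rw [prod_range_succ' (fun j => (X - C (t (i + 1 + j)))) m,
    prod_range_succ (fun j => (X - C (t (i + 1 + 1 + j)))) m]
  have e : ∏ j ∈ range m, (X - C (t (i + 1 + (j + 1))))
      = ∏ j ∈ range m, (X - C (t (i + 1 + 1 + j))) :=
    prod_congr rfl (fun j _ => by rw [show i + 1 + (j + 1) = i + 1 + 1 + j by ring])
  have e2 : i + 1 + 1 + m = i + m + 2 := by ring
  rw [e2, smul_eq_C_mul, C_sub, e, Nat.add_zero]
  ring

theorem vanish (t : ℕ → ℝ) (ht : ∀ a b, 1 ≤ a → a < b → t a < t b) (n : ℕ)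
    (φ : ℝ[X] →ₗ[ℝ] ℝ) (h : Alt (fun i => φ (Q t n i)) (n + 2)) :
    ∀ m, m ≤ n → ∀ i, φ (Q t m i) = 0 := by
  have hrec : ∀ m i, φ (Q t (m + 1) i) - φ (Q t (m + 1) (i + 1))
      = (t (i + m + 2) - t (i + 1)) * φ (Q t m (i + 1)) := by
    intro m i
    rw [← map_sub, Q_sub, map_smul, smul_eq_mul]
  have alt : ∀ r, r ≤ n → Alt (fun i => φ (Q t (n - r) i)) (n - r + 2) := by
    intro r
    induction r with
    | zero => intro _; simpa using h
    | succ r ih =>
      intro hr
      have h1 := ih (by omega)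
      have e : n - r = n - (r + 1) + 1 := by omega
      rw [e] at h1
      refine alt_step (fun i => φ (Q t (n - (r + 1) + 1) i)) _
        (fun i => t (i + (n - (r + 1)) + 2) - t (i + 1)) ?_ (fun i => hrec _ i) _ h1
      intro i
      have := ht (i + 1) (i + (n - (r + 1)) + 2) (by omega) (by omega)
      linarith
  have alt' : ∀ m, m ≤ n → Alt (fun i => φ (Q t m i)) (m + 2) := by
    intro m hm
    have := alt (n - m) (by omega)
    have e : n - (n - m) = m := by omega
    rwa [e] at this
  intro m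
  induction m with
  | zero =>
    intro hm i
    have : φ 1 = 0 := alt_const _ (φ 1) (fun i => by simp [Q]) 0 (alt' 0 hm)
    simpa [Q] using this
  | succ m ih =>
    intro hm i
    have hc : ∀ i, φ (Q t (m + 1) i) = φ (Q t (m + 1) 0) := by
      intro i
      induction i with
      | zero => rfl
      | succ i ih2 =>
        have := hrec m i
        rw [ih (by omega), mul_zero] at this
        linarith
    rw [hc i]
    exact alt_const _ _ hc (m + 1) (alt' (m + 1) hm)

theorem Q_natDegree (t : ℕ → ℝ) (m i : ℕ) : (Q t m i).Monic ∧ (Q t m i).natDegree = m := by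
  unfold Q
  refine ⟨monic_prod_of_monic _ _ (fun j _ => monic_X_sub_C _), ?_⟩
  rw [natDegree_prod_of_monic _ _ (fun j _ => monic_X_sub_C _)]
  simp

theorem main (t : ℕ → ℝ) (ht : ∀ a b, 1 ≤ a → a < b → t a < t b) (n : ℕ)
    (i : Fin (n + 1) → ℕ) (hi : StrictMono i) :
    LinearIndependent ℝ (fun l : Fin (n + 1) => Q t n (i l)) := by
  set S := Submodule.span ℝ (Set.range (fun l : Fin (n + 1) => Q t n (i l))) with hS
  have hmem : ∀ m, m ≤ n → Q t m 0 ∈ S := by
    intro m hm
    by_contra hn
    obtain ⟨φ, hφ1, hφ2⟩ := Submodule.exists_dual_map_eq_bot_of_notMem hn inferInstance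
    apply hφ1
    have hz : ∀ l, φ (Q t n (i l)) = 0 := by
      intro l
      have : φ (Q t n (i l)) ∈ S.map φ :=
        Submodule.mem_map_of_mem (Submodule.subset_span ⟨l, rfl⟩)
      rw [hφ2] at this
      simpa using this
    refine vanish t ht n φ ?_ m hm 0
    let idx : ℕ → ℕ := fun s => if h : s < n + 1 then i ⟨s, h⟩ else i (Fin.last n) + 1
    let v : ℝ := φ (Q t n (i (Fin.last n) + 1))
    refine ⟨idx, (if 0 ≤ v then 1 else -1) * (-1) ^ (n + 1), ?_, ?_, ?_⟩
    · apply mul_ne_zero
      · split_ifs <;> norm_num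
      · exact pow_ne_zero _ (by norm_num)
    · intro s hs
      by_cases h1 : s + 1 < n + 1
      · have h0 : s < n + 1 := by omega
        simp only [idx, h1, h0, dif_pos]
        exact hi (by simp [Fin.lt_def])
      · have h0 : s < n + 1 := by omega
        simp only [idx, h1, h0, dif_pos, dif_neg, not_false_eq_true]
        have : (⟨s, h0⟩ : Fin (n + 1)) = Fin.last n := by
          ext; simp; omega
        rw [this]; omega
    · intro s hs
      by_cases h0 : s < n + 1
      · simp only [idx, h0, dif_pos, hz, mul_zero, le_refl]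
      · have e : s = n + 1 := by omega
        subst e
        simp only [idx, lt_irrefl, dif_neg, not_false_eq_true]
        have sq : ((-1 : ℝ) ^ (n + 1)) * (-1) ^ (n + 1) = 1 := by
          rw [← mul_pow]; simp
        rw [mul_assoc (if 0 ≤ v then (1 : ℝ) else -1), sq, mul_one]
        change 0 ≤ (if 0 ≤ v then (1 : ℝ) else -1) * v
        split_ifs with hv
        · linarith
        · push Not at hv; linarith
  have hli : LinearIndependent ℝ (fun m : Fin (n + 1) => Q t m 0) := by
    let Sq : Polynomial.Sequence ℝ :=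
      ⟨fun m => Q t m 0, fun m => by
        rw [degree_eq_natDegree (Q_natDegree t m 0).1.ne_zero, (Q_natDegree t m 0).2]⟩
    exact Sq.linearIndependent.comp (fun m : Fin (n + 1) => (m : ℕ)) Fin.val_injective
  rw [linearIndependent_iff_card_le_finrank_span]
  let g : Fin (n + 1) → S := fun m => ⟨Q t m 0, hmem m (by omega)⟩
  have hg : LinearIndependent ℝ g := by
    apply LinearIndependent.of_comp S.subtype
    exact hli
  have : Module.Finite ℝ S := Module.Finite.span_of_finite ℝ (Set.finite_range _)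
  exact hg.fintype_card_le_finrank

end Pool.Agent.Lib.MP_441cc7_al
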